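import Mathlib

set_option autoImplicit false

namespace Pool.Agent.Results.MP_c852bb_co.All

/-- locating-dominating set -/
def IsLD {V : Type} (G : SimpleGraph V) (D : Set V) : Prop :=
  (∀ v, v ∉ D → ∃ w ∈ D, G.Adj v w) ∧
    ∀ u v, u ∉ D → v ∉ D → u ≠ v → G.neighborSet u ∩ D ≠ G.neighborSet v ∩ D

/-- LD-coalition -/
def Coalition {V : Type} (G : SimpleGraph V) (X Y : Set V) : Prop :=
  Disjoint X Y ∧ ¬ IsLD G X ∧ ¬ IsLD G Y ∧ IsLD G (X ∪ Y)

/-- LDC-partition -/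
def IsLDC {V : Type} (G : SimpleGraph V) (P : Set (Set V)) : Prop :=
  Setoid.IsPartition P ∧ ∀ X ∈ P, ¬ IsLD G X ∧ ∃ Y ∈ P, Y ≠ X ∧ Coalition G X Y

lemma single {V : Type} [Fintype V] (G : SimpleGraph V) (h : 3 ≤ Fintype.card V) (y : V) :
    ¬ IsLD G {y} := by
  classical
  rintro ⟨h1, h2⟩
  obtain ⟨u, hu, v, hv, huv⟩ := Finset.one_lt_card.1
    (show 1 < (Finset.univ.erase y).card by rw [Finset.card_erase_of_mem (by simp)]; simp; omega)
  have a := Finset.ne_of_mem_erase hu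
  have b := Finset.ne_of_mem_erase hv
  obtain ⟨_, rfl, c⟩ := h1 u a
  obtain ⟨_, rfl, d⟩ := h1 v b
  refine h2 u v a b huv ?_
  ext w
  simp only [Set.mem_inter_iff, SimpleGraph.mem_neighborSet, Set.mem_singleton_iff]
  exact ⟨fun h => ⟨h.2 ▸ d, h.2⟩, fun h => ⟨h.2 ▸ c, h.2⟩⟩

lemma main {V : Type} [Fintype V] (G : SimpleGraph V) (h : 3 ≤ Fintype.card V) :
    ∃ P, IsLDC G P := by
  obtain ⟨v⟩ : Nonempty V := Fintype.card_pos_iff.1 (by omega)
  obtain ⟨X, hv, hX⟩ := (Set.toFinite {X | ¬ IsLD G X}).exists_le_maximal (single G h v)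
  have hvX : v ∈ X := hv rfl
  have co : ∀ y, y ∉ X → IsLD G (X ∪ {y}) := fun y hy => by
    by_contra hc
    exact hy (hX.2 hc Set.subset_union_left (Or.inr rfl))
  obtain ⟨y, hy⟩ : ∃ y, y ∉ X := by
    by_contra hc
    push Not at hc
    exact hX.1 ⟨fun v hv => absurd (hc v) hv, fun u _ hu => absurd (hc u) hu⟩
  refine ⟨insert X {S | ∃ z, z ∉ X ∧ S = {z}}, ⟨?_, fun a => ?_⟩, ?_⟩
  · rintro (h | ⟨z, -, h⟩)
    · rw [← h] at hvX; exact hvX
    · exact (Set.singleton_nonempty z).ne_empty h.symm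
  · by_cases ha : a ∈ X
    · refine ⟨X, ⟨Or.inl rfl, ha⟩, ?_⟩
      rintro S ⟨rfl | ⟨z, hz, rfl⟩, h⟩
      · rfl
      · exact absurd (h ▸ ha) hz
    · refine ⟨{a}, ⟨Or.inr ⟨a, ha, rfl⟩, rfl⟩, ?_⟩
      rintro S ⟨rfl | ⟨z, hz, rfl⟩, h⟩
      · exact absurd h ha
      · rw [show a = z from h]
  · rintro S (rfl | ⟨z, hz, rfl⟩)
    · exact ⟨hX.1, {y}, Or.inr ⟨y, hy, rfl⟩, fun e => hy (e ▸ rfl),
        Set.disjoint_singleton_right.2 hy, hX.1, single G h y, co y hy⟩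
    · exact ⟨single G h z, X, Or.inl rfl, fun e => hz (e ▸ rfl),
        Set.disjoint_singleton_left.2 hz, single G h z, hX.1, Set.union_comm _ _ ▸ co z hz⟩

/-- Every graph on at least three vertices, in particular every graph of diameter two, has an
LDC-partition. -/
theorem result : ∀ (V : Type) [Fintype V] (G : SimpleGraph V),
    (3 ≤ Fintype.card V → ∃ P, IsLDC G P) ∧ (G.Connected → G.diam = 2 → ∃ P, IsLDC G P) := by
  intro V _ G
  refine ⟨main G, fun hc hd => main G ?_⟩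
  have := hc.nonempty
  obtain ⟨u, v, h⟩ := G.exists_dist_eq_diam
  obtain ⟨p, hp, hl⟩ := hc.exists_path_of_dist u v
  have := hp.length_lt
  omega

end Pool.Agent.Results.MP_c852bb_co.All
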